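import Pool.Agent.Helper84.PH.Defs

/-!
# A complex torus carries no closed holomorphic 1-form which vanishes at a point but not everywhere
-/

open scoped Manifold ContDiff Topology
open Set Filter

noncomputable section

namespace HolPH

/-- A continuous function which is periodic with respect to a full lattice is bounded. -/
theorem isBounded_range_of_periodic {E F : Type*} [NormedAddCommGroup E] [NormedSpace ℝ E]
    [FiniteDimensional ℝ E] [NormedAddCommGroup F] (Λ : Submodule ℤ E) [DiscreteTopology Λ]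
    [IsZLattice ℝ Λ] (H : E → F) (hH : Continuous H) (hp : ∀ t, ∀ l ∈ Λ, H (t + l) = H t) :
    Bornology.IsBounded (range H) := by
  classical
  have := ZLattice.module_finite ℝ Λ
  have := ZLattice.module_free ℝ Λ
  have : ProperSpace E := FiniteDimensional.proper_real E
  set b := (Module.Free.chooseBasis ℤ Λ).ofZLatticeBasis ℝ Λ with hb
  have hspan : Submodule.span ℤ (Set.range b) = Λ :=
    (Module.Free.chooseBasis ℤ Λ).ofZLatticeBasis_span ℝ
  have hbd : Bornology.IsBounded (ZSpan.fundamentalDomain b) :=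
    ZSpan.fundamentalDomain_isBounded b
  have hcpt : IsCompact (closure (ZSpan.fundamentalDomain b)) := hbd.isCompact_closure
  refine (hcpt.image hH).isBounded.subset ?_
  rintro _ ⟨t, rfl⟩
  refine ⟨ZSpan.fract b t, subset_closure (ZSpan.fract_mem_fundamentalDomain b t), ?_⟩
  rw [ZSpan.fract_apply, sub_eq_add_neg]
  exact hp t _ (Λ.neg_mem (hspan.le (ZSpan.floor b t).2))

/-- A manifold with a closed holomorphic 1-form which vanishes at some point but not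
identically is not a complex torus. -/
theorem ex1 {M : Type*} [TopologicalSpace M] [ChartedSpace C3 M] [IsManifold I3 ω M]
    (h : M → M → ℂ) (hh : IsLocalPrimitive h)
    (hz : ∃ x, ∀ v : TangentSpace I3 x, (mfderiv I3 𝓘(ℂ, ℂ) (h x) x v : ℂ) = 0)
    (hne : ∃ (x : M) (v : TangentSpace I3 x), (mfderiv I3 𝓘(ℂ, ℂ) (h x) x v : ℂ) ≠ 0) :
    ¬ IsComplexTorus M := by
  rintro ⟨Λ, hΛd, hΛz, Ψ, hΨ, hsurj, hper⟩
  have hω : (ω : WithTop ℕ∞) ≠ 0 := by simp
  have hΨc : ContMDiff I3 I3 ω Ψ := hΨ.contMDiff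
  have hΨd : MDifferentiable I3 I3 Ψ := hΨ.mdifferentiable hω
  -- the form pulled back to `ℂ³`
  let H : C3 → (C3 →L[ℂ] ℂ) := fun t => fderiv ℂ (fun s => h (Ψ t) (Ψ s)) t
  -- local formula
  have hloc : ∀ t₀ : C3, ∀ᶠ t in 𝓝 t₀, H t = fderiv ℂ (fun s => h (Ψ t₀) (Ψ s)) t := by
    intro t₀
    have h1 : ∀ᶠ t in 𝓝 t₀, ∀ v : TangentSpace I3 (Ψ t),
        (mfderiv I3 𝓘(ℂ, ℂ) (h (Ψ t₀)) (Ψ t) v : ℂ) = (mfderiv I3 𝓘(ℂ, ℂ) (h (Ψ t)) (Ψ t) v : ℂ) :=
      hΨc.continuous.continuousAt.eventually (hh.compat (Ψ t₀))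
    have h2 : ∀ᶠ t in 𝓝 t₀, ContMDiffAt I3 𝓘(ℂ, ℂ) ω (h (Ψ t₀)) (Ψ t) :=
      hΨc.continuous.continuousAt.eventually
        ((contMDiffAt_iff_contMDiffAt_nhds (by simp)).1 (hh.holo (Ψ t₀)))
    filter_upwards [h1, h2] with t h1 h2
    have e1 : fderiv ℂ (fun s => h (Ψ t) (Ψ s)) t =
        (mfderiv I3 𝓘(ℂ, ℂ) (h (Ψ t)) (Ψ t)).comp (mfderiv I3 I3 Ψ t) := by
      rw [← mfderiv_comp t ((hh.holo (Ψ t)).mdifferentiableAt hω) (hΨd t), mfderiv_eq_fderiv]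
      rfl
    have e2 : fderiv ℂ (fun s => h (Ψ t₀) (Ψ s)) t =
        (mfderiv I3 𝓘(ℂ, ℂ) (h (Ψ t₀)) (Ψ t)).comp (mfderiv I3 I3 Ψ t) := by
      rw [← mfderiv_comp t (h2.mdifferentiableAt hω) (hΨd t), mfderiv_eq_fderiv]
      rfl
    show fderiv ℂ (fun s => h (Ψ t) (Ψ s)) t = _
    rw [e1, e2]
    exact ContinuousLinearMap.ext fun v => (h1 _).symm
  have hHd : Differentiable ℂ H := by
    intro t₀
    have hc : ContDiffAt ℂ ω (fun s => h (Ψ t₀) (Ψ s)) t₀ := by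
      rw [← contMDiffAt_iff_contDiffAt]
      exact (hh.holo (Ψ t₀)).comp t₀ (hΨc t₀)
    have hd : DifferentiableAt ℂ (fderiv ℂ (fun s => h (Ψ t₀) (Ψ s))) t₀ :=
      (hc.fderiv_right (m := 1) (by simp)).differentiableAt (by simp)
    exact hd.congr_of_eventuallyEq (hloc t₀)
  have hpe : ∀ t, ∀ l ∈ Λ, H (t + l) = H t := by
    intro t l hl
    have hP : ∀ s, Ψ (s + l) = Ψ s := fun s => (hper _ _).2 (by simpa using hl)
    show fderiv ℂ (fun s => h (Ψ (t + l)) (Ψ s)) (t + l) = fderiv ℂ (fun s => h (Ψ t) (Ψ s)) t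
    rw [hP t, ← fderiv_comp_add_right]
    simp only [hP]
  have hbd : Bornology.IsBounded (range H) :=
    isBounded_range_of_periodic Λ H hHd.continuous hpe
  have hconst : ∀ s t, H s = H t := fun s t => hHd.apply_eq_apply_of_bounded hbd s t
  obtain ⟨x, hx⟩ := hz
  obtain ⟨y, v, hv⟩ := hne
  obtain ⟨t, rfl⟩ := hsurj x
  obtain ⟨s, rfl⟩ := hsurj y
  have hH0 : H s = 0 := by
    rw [hconst s t]
    show fderiv ℂ (fun r => h (Ψ t) (Ψ r)) t = 0
    have e1 : fderiv ℂ (fun r => h (Ψ t) (Ψ r)) t =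
        (mfderiv I3 𝓘(ℂ, ℂ) (h (Ψ t)) (Ψ t)).comp (mfderiv I3 I3 Ψ t) := by
      rw [← mfderiv_comp t ((hh.holo (Ψ t)).mdifferentiableAt hω) (hΨd t), mfderiv_eq_fderiv]
      rfl
    rw [e1]
    exact ContinuousLinearMap.ext fun w => hx _
  have e1 : fderiv ℂ (fun r => h (Ψ s) (Ψ r)) s =
      (mfderiv I3 𝓘(ℂ, ℂ) (h (Ψ s)) (Ψ s)).comp (mfderiv I3 I3 Ψ s) := by
    rw [← mfderiv_comp s ((hh.holo (Ψ s)).mdifferentiableAt hω) (hΨd s), mfderiv_eq_fderiv]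
    rfl
  let e := (hΨ s).mfderivToContinuousLinearEquiv hω
  have he : (mfderiv I3 I3 Ψ s) (e.symm v) = v := e.apply_symm_apply v
  apply hv
  have h3 : (H s) (e.symm v) = 0 := by rw [hH0]; rfl
  have h4 : (H s) (e.symm v) = mfderiv I3 𝓘(ℂ, ℂ) (h (Ψ s)) (Ψ s) ((mfderiv I3 I3 Ψ s) (e.symm v)) := by
    show (fderiv ℂ (fun r => h (Ψ s) (Ψ r)) s) (e.symm v) = _
    rw [e1]
    rfl
  rw [he] at h4
  rw [← h4]
  exact h3

end HolPH
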