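import Pool.Agent.Helper6.PH.Good

/-!
# The windows with many complete nodes: runs between arbitrary states, arbitrary results
-/

namespace Pool.Agent.Helper66.PH

open Pool.Agent.Helper74.NW Pool.Agent.Helper74.NE Pool.Agent.Helper19.NF
open Pool.Agent.Helper74.NS (Expands)

section results

variable {C W Z Y : Type} {S : ℕ}

/-- The same program with other results. -/
def mapRes (P : NProg C W Z S) (f : Z → Y) : NProg C W Y S where
  start := P.start
  act := fun s => (P.act s).map id f

theorem act_mapRes {P : NProg C W Z S} {f : Z → Y} {s : Fin S} {x : C × (W → Set (Fin S))} :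
    (mapRes P f).act s = Sum.inl x ↔ P.act s = Sum.inl x := by
  show (P.act s).map id f = Sum.inl x ↔ _
  rcases P.act s with y | z
  · simp
  · simp

theorem run_mapRes {P : NProg C W Z S} {f : Z → Y} {I : C → W} {s t : Fin S} {l : List C} :
    (mapRes P f).Run I s l t ↔ P.Run I s l t := by
  constructor
  · intro h
    induction h with
    | nil s => exact NProg.Run.nil s
    | cons s s' t c next l h1 h2 _ ih => exact NProg.Run.cons s s' t c next l (act_mapRes.1 h1) h2 ih
  · intro h
    induction h with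
    | nil s => exact NProg.Run.nil s
    | cons s s' t c next l h1 h2 _ ih => exact NProg.Run.cons s s' t c next l (act_mapRes.2 h1) h2 ih

theorem best_mapRes {K : ℕ} {e : C → Fin K} {P : NProg C W Z S} {f : Z → Y} {I : C → W} {s t : Fin S}
    {l : List C} : Best (mapRes P f) e I s l t ↔ Best P e I s l t := by
  constructor
  · intro h
    exact ⟨run_mapRes.1 h.run, fun w' hw' => h.len w' (run_mapRes.2 hw'),
      fun w' hw' hl => h.num w' (run_mapRes.2 hw') hl⟩
  · intro h
    exact ⟨run_mapRes.2 h.run, fun w' hw' => h.len w' (run_mapRes.1 hw'),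
      fun w' hw' hl => h.num w' (run_mapRes.1 hw') hl⟩

end results

variable {n d m : ℕ} {B : Type} [AddCommGroup B] [NeZero m] {S K : ℕ}

/-- Complete nodes have full children. -/
theorem full_of_comp {g : Fin d → Equiv.Perm (Fin n)} {x0 : Fin n × Fin m → B} {I : B → Fin d × Fin m → B}
    {R a : ℕ} (hE : Expands g a) {l : List B} (h : a ≤ (comp g x0 I R l).card) :
    4 * a ≤ (full g x0 I R l).card := by
  classical
  refine (hE _ h).trans (Finset.card_le_card ?_)
  intro v hv
  obtain ⟨s, u, hu, rfl⟩ := (Finset.mem_filter.1 hv).2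
  unfold comp at hu
  unfold full
  rw [Finset.mem_filter] at hu ⊢
  exact ⟨Finset.mem_univ _, fun t => hu.2 (s, t)⟩

/-- P4: `good_bound`, but for runs between arbitrary states. -/
theorem good_bound [Fintype B] {Z : Type} (P : NProg B (Fin d × Fin m → B) Z S) (e : B → Fin K)
    (he : Function.Injective e) (g : Fin d → Equiv.Perm (Fin n)) (x0 : Fin n × Fin m → B)
    {R T a : ℕ} {δ : ℝ} (hδ : DP B (Fin a × Fin m) T δ) (ha : 1 ≤ a) (hE : Expands g a) :
    (Nat.card {I : B → Fin d × Fin m → B // CF (fine g) x0 R I ∧ ∃ s l t, Best P e I s l t ∧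
        Nat.card {c // c ∈ l} ≤ T ∧ a ≤ (comp g x0 I R l).card ∧ l.length ≤ 2 ^ R} : ℝ) ≤
      R * n.choose a * ((d * m) ^ a) ^ 2 * (S : ℝ) ^ 3 * δ * Nat.card (B → Fin d × Fin m → B) := by
  classical
  refine le_trans ?_ (Pool.Agent.Helper6.PH.good_bound_any (mapRes P fun _ => (0 : B)) e he g x0 hδ ha hE)
  have hfin : Finite {I : B → Fin d × Fin m → B // CF (fine g) x0 R I ∧ ∃ s l t,
      Best (mapRes P fun _ => (0 : B)) e I s l t ∧ Nat.card {c // c ∈ l} ≤ T ∧
      4 * a ≤ (full g x0 I R l).card ∧ l.length ≤ 2 ^ R} := inferInstance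
  exact_mod_cast Nat.card_le_card_of_injective
    (fun I : {I : B → Fin d × Fin m → B // CF (fine g) x0 R I ∧ ∃ s l t, Best P e I s l t ∧
        Nat.card {c // c ∈ l} ≤ T ∧ a ≤ (comp g x0 I R l).card ∧ l.length ≤ 2 ^ R} =>
      (⟨I.1, I.2.1, by
        obtain ⟨s, l, t, h1, h2, h3, h4⟩ := I.2.2
        exact ⟨s, l, t, best_mapRes.2 h1, h2, full_of_comp hE h3, h4⟩⟩ :
        {I : B → Fin d × Fin m → B // CF (fine g) x0 R I ∧ ∃ s l t,
          Best (mapRes P fun _ => (0 : B)) e I s l t ∧ Nat.card {c // c ∈ l} ≤ T ∧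
          4 * a ≤ (full g x0 I R l).card ∧ l.length ≤ 2 ^ R}))
    (fun I I' h => Subtype.ext (Subtype.mk.inj h))

end Pool.Agent.Helper66.PH
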